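import Pool.Agent.FleaV.Eff

/-!
# The three fleas: few areas are missed in every window

There are absolute `η > 0`, `c` and `k` such that for every primitive non-degenerate triangle `K` which has
two sides of length at most `M ≥ 1`, among any `X ≥ 1` consecutive natural numbers at most
`c M ^ k X ^ (1 - η)` are not the area of a triangle which is reachable from `K`, and the same holds for
half-integers.
-/

set_option autoImplicit false

namespace Pool.Agent.Results.MP_fb7c71_nt.PowerSaving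

open Finset

/-- the imaginary unit -/
def I : GaussianInt := ⟨0, 1⟩

/-- `P Q R S` is a square, with its vertices in this cyclic order -/
def Square (P Q R S : GaussianInt) : Prop :=
  (R = Q + I * (Q - P) ∧ S = P + I * (Q - P)) ∨ (R = Q - I * (Q - P) ∧ S = P - I * (Q - P))

/-- a move: two of the three points, `P ≠ Q`, are replaced by `R`, `S` such that `P Q R S` is a
square; the third point `T` stays -/
def Move (c c' : Multiset GaussianInt) : Prop :=
  ∃ P Q T R S : GaussianInt, P ≠ Q ∧ Square P Q R S ∧ c = {P, Q, T} ∧ c' = {R, S, T}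

/-- the area of the triangle `P Q T` -/
def area (P Q T : GaussianInt) : ℚ := |((star (Q - P) * (T - P)).im : ℚ)| / 2

/-- `x` is the area of a configuration which is reachable from the triangle `A B C` -/
def IsArea (A B C : GaussianInt) (x : ℚ) : Prop :=
  ∃ P Q T : GaussianInt, Relation.ReflTransGen Move {A, B, C} {P, Q, T} ∧ area P Q T = x

/-- the vertices of the triangle `A B C` do not all lie in one translate `z + c ℤ[i]` with
`|c| ^ 2 > 1` -/
def Primitive (A B C : GaussianInt) : Prop :=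
  ∀ z c : GaussianInt, 1 < c.norm → ¬ (c ∣ A - z ∧ c ∣ B - z ∧ c ∣ C - z)

/-- the set `I(K)` of the missed integers, for the triangle `K = A B C` -/
def missedI (A B C : GaussianInt) : Set ℕ := {n | ¬ IsArea A B C n}

/-- the set `H(K)` of the missed half-integers; `m` stands for the half-integer `m + 1 / 2` -/
def missedH (A B C : GaussianInt) : Set ℕ := {m | ¬ IsArea A B C (m + 1 / 2)}

theorem isArea_of_reached {A B C : GaussianInt} {n : ℕ} (h : Flea.Reached A B C n) :
    IsArea A B C ((n : ℚ) / 2) := by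
  obtain ⟨P, Q, T, h1, h2⟩ := h
  refine ⟨P, Q, T, h1, ?_⟩
  unfold area
  rw [← h2]
  unfold Flea.area2
  rw [Nat.cast_natAbs, Int.cast_abs]

open Classical in
theorem result : ∃ (η c : ℝ) (k : ℕ), 0 < η ∧ ∀ A B C : GaussianInt, area A B C ≠ 0 → Primitive A B C →
    ∀ M : ℕ, 1 ≤ M → (B - A).norm ≤ (M : ℤ) ^ 2 → (C - B).norm ≤ (M : ℤ) ^ 2 →
    ∀ Y X : ℕ, 1 ≤ X →
      ((missedI A B C ∩ Set.Ico Y (Y + X)).ncard : ℝ) ≤ c * (M : ℝ) ^ k * (X : ℝ) ^ (1 - η) ∧
      ((missedH A B C ∩ Set.Ico Y (Y + X)).ncard : ℝ) ≤ c * (M : ℝ) ^ k * (X : ℝ) ^ (1 - η) := by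
  obtain ⟨η, c0, k, h0, -, h⟩ := FleaV.exceptional_eff
  refine ⟨η, c0 * (2 : ℝ) ^ (1 - η), k, h0, fun A B C hA hp M hM hs1 hs2 => ?_⟩
  have hA' : Flea.area2 A B C ≠ 0 := by
    intro h1
    apply hA
    unfold Flea.area2 at h1
    rw [Int.natAbs_eq_zero] at h1
    unfold area
    rw [h1]
    simp
  have hc := h A B C hA' hp M hM (by rw [Flea.N_eq_norm]; exact hs1) (by rw [Flea.N_eq_norm]; exact hs2)
  set c : ℝ := c0 * (M : ℝ) ^ k with hcdef
  intro Y X hX
  have h1 : c0 * (2 : ℝ) ^ (1 - η) * (M : ℝ) ^ k = c * (2 : ℝ) ^ (1 - η) := by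
    rw [hcdef]; ring
  rw [h1]
  have h2 : c * (2 : ℝ) ^ (1 - η) * (X : ℝ) ^ (1 - η) = c * (((2 * X : ℕ) : ℝ)) ^ (1 - η) := by
    rw [Nat.cast_mul, Real.mul_rpow (by norm_num) (by positivity)]
    push_cast
    ring
  have h3 := hc (2 * Y) (2 * X) (by omega)
  have key : ∀ r : ℕ, r < 2 → ∀ S : Set ℕ, (∀ n ∈ S, ¬ Flea.Reached A B C (2 * n + r)) →
      ((S ∩ Set.Ico Y (Y + X)).ncard : ℝ) ≤ c * (((2 * X : ℕ) : ℝ)) ^ (1 - η) := by
    intro r hr S hS
    refine le_trans ?_ h3
    have h4 : (S ∩ Set.Ico Y (Y + X)).ncard ≤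
        ((range (2 * X)).filter fun n : ℕ => ¬ Flea.Reached A B C (n + 2 * Y)).card := by
      rw [← Set.ncard_coe_finset]
      refine Set.ncard_le_ncard_of_injOn (fun n => 2 * (n - Y) + r) ?_ ?_ (Finset.finite_toSet _)
      · intro n hn
        obtain ⟨hn1, hn2⟩ := hn
        rw [Set.mem_Ico] at hn2
        rw [Finset.mem_coe, Finset.mem_filter, Finset.mem_range]
        refine ⟨by omega, ?_⟩
        have h5 : 2 * (n - Y) + r + 2 * Y = 2 * n + r := by omega
        rw [h5]
        exact hS n hn1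
      · intro a ha b hb hab
        have ha2 := ha.2
        have hb2 := hb.2
        rw [Set.mem_Ico] at ha2 hb2
        simp only at hab
        omega
    exact_mod_cast h4
  rw [h2]
  constructor
  · refine key 0 (by norm_num) _ fun n hn h5 => hn ?_
    have h6 := isArea_of_reached h5
    have h7 : (((2 * n + 0 : ℕ) : ℚ) / 2) = (n : ℚ) := by push_cast; ring
    rw [h7] at h6
    exact h6
  · refine key 1 (by norm_num) _ fun n hn h5 => hn ?_
    have h6 := isArea_of_reached h5
    have h7 : (((2 * n + 1 : ℕ) : ℚ) / 2) = (n : ℚ) + 1 / 2 := by push_cast; ring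
    rw [h7] at h6
    exact h6

end Pool.Agent.Results.MP_fb7c71_nt.PowerSaving
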